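import Mathlib

namespace Helper67.SQ

open Real Filter

/-- Monomials are eventually smaller than exponentials. -/
theorem ev_mono_le_exp (A b : ℝ) (hb : 0 < b) (k : ℕ) :
    ∀ᶠ x : ℝ in atTop, A * x ^ k ≤ exp (b * x) := by
  have h := (isLittleO_pow_exp_pos_mul_atTop k hb).def (c := 1 / (|A| + 1)) (by positivity)
  filter_upwards [h, eventually_ge_atTop 0] with x hx hx0
  rw [norm_of_nonneg (by positivity), norm_of_nonneg (exp_pos _).le] at hx
  have hA : 0 < |A| + 1 := by positivity
  have h1 : (|A| + 1) * x ^ k ≤ exp (b * x) := by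
    rw [div_mul_eq_mul_div, one_mul, le_div_iff₀ hA] at hx
    linarith
  have h2 : A * x ^ k ≤ (|A| + 1) * x ^ k := by
    apply mul_le_mul_of_nonneg_right _ (by positivity)
    linarith [le_abs_self A]
  linarith

theorem ev_quad_le_exp (A B C b : ℝ) (hb : 0 < b) :
    ∀ᶠ x : ℝ in atTop, A * x ^ 2 + B * x + C ≤ exp (b * x) := by
  filter_upwards [ev_mono_le_exp (3 * A) b hb 2, ev_mono_le_exp (3 * B) b hb 1,
    ev_mono_le_exp (3 * C) b hb 0] with x h2 h1 h0
  simp only [pow_one, pow_zero, mul_one] at h1 h0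
  linarith

theorem ev_log_le (A B b : ℝ) (hb : 0 < b) (hA : 0 < A) :
    ∀ᶠ x : ℝ in atTop, log (A * x + B) ≤ b * x := by
  filter_upwards [ev_quad_le_exp 0 A B b hb, eventually_gt_atTop (|B| / A)] with x hx hx1
  have hpos : 0 < A * x + B := by
    rw [div_lt_iff₀ hA] at hx1
    have := neg_abs_le B
    linarith
  rw [log_le_iff_le_exp hpos]
  linarith

/-- From real to natural numbers. -/
theorem ev_nat {P : ℝ → Prop} (h : ∀ᶠ x : ℝ in atTop, P x) : ∀ᶠ n : ℕ in atTop, P n :=
  tendsto_natCast_atTop_atTop.eventually h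

end Helper67.SQ
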