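import Pool.Agent.Helper67.SQ.Comb

/-!
# Basic lemmas on the binary tiling and on coarse embeddings
-/

namespace Helper67.SQ

open Real Finset

theorem Adj.symm {p q : V} (h : Adj p q) : Adj q p := Or.symm h

theorem Near.refl (n : ℕ) (p : V) : Near n p p := by
  induction n with
  | zero => rfl
  | succ n ih => exact ⟨p, Or.inl rfl, ih⟩

theorem Near.mono {m n : ℕ} {p q : V} (h : Near m p q) (hmn : m ≤ n) : Near n p q := by
  induction m generalizing n p with
  | zero => rw [show p = q from h]; exact Near.refl n q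
  | succ m ih =>
    obtain ⟨r, hr, h'⟩ := h
    obtain ⟨n, rfl⟩ : ∃ k, n = k + 1 := ⟨n - 1, by omega⟩
    exact ⟨r, hr, ih h' (by omega)⟩

theorem Near.trans {m n : ℕ} {p q r : V} (h : Near m p q) (h' : Near n q r) :
    Near (m + n) p r := by
  induction m generalizing p with
  | zero => rw [show p = q from h]; simpa using h'
  | succ m ih =>
    obtain ⟨s, hs, h1⟩ := h
    rw [show m + 1 + n = (m + n) + 1 by ring]
    exact ⟨s, hs, ih h1⟩

theorem Near.of_adj {p q : V} (h : Adj p q) : Near 1 p q := ⟨q, Or.inr h, rfl⟩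

theorem Near.symm {n : ℕ} {p q : V} (h : Near n p q) : Near n q p := by
  induction n generalizing p with
  | zero => exact (show p = q from h).symm
  | succ n ih =>
    obtain ⟨r, hr, h'⟩ := h
    have h1 : Near 1 r p := by
      rcases hr with rfl | hr
      · exact Near.refl 1 p
      · exact Near.of_adj hr.symm
    exact (ih h').trans h1

theorem edge_cases {p q : V} (h : Edge p q) :
    q = (p.1, p.2 + 1) ∨ q = (p.1 + 1, 2 * p.2) ∨ q = (p.1 + 1, 2 * p.2 + 1) ∨
      q = (p.1 + 1, 2 * p.2 - 1) := by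
  cases h with
  | horiz d j => simp
  | left d j => simp
  | right d j => simp
  | diag d j => right; right; right; simp; ring

theorem edge_cases' {p q : V} (h : Edge p q) :
    p = (q.1, q.2 - 1) ∨ p = (q.1 - 1, q.2 / 2) ∨ p = (q.1 - 1, q.2 / 2 + 1) := by
  cases h with
  | horiz d j => simp
  | left d j => right; left; simp
  | right d j => right; left; simp; omega
  | diag d j => right; right; simp; omega

/-- The at most seven neighbours of a vertex. -/
def nbrs (p : V) : Finset V :=
  {p, (p.1, p.2 + 1), (p.1 + 1, 2 * p.2), (p.1 + 1, 2 * p.2 + 1), (p.1 + 1, 2 * p.2 - 1),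
    (p.1, p.2 - 1), (p.1 - 1, p.2 / 2), (p.1 - 1, p.2 / 2 + 1)}

theorem mem_nbrs {p q : V} (h : p = q ∨ Adj p q) : q ∈ nbrs p := by
  unfold nbrs
  rcases h with rfl | h | h
  · simp
  · rcases edge_cases h with rfl | rfl | rfl | rfl <;> simp
  · rcases edge_cases' h with rfl | rfl | rfl <;> simp

theorem card_nbrs (p : V) : (nbrs p).card ≤ 8 := by
  unfold nbrs
  refine (card_insert_le _ _).trans (Nat.succ_le_succ ?_)
  refine (card_insert_le _ _).trans (Nat.succ_le_succ ?_)
  exact card_le_six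

theorem near_ball (n : ℕ) (p : V) :
    ∃ S : Finset V, S.card ≤ 8 ^ n ∧ ∀ q, Near n p q → q ∈ S := by
  classical
  induction n generalizing p with
  | zero =>
    refine ⟨{p}, by simp, fun q hq => ?_⟩
    rw [show p = q from hq]; simp
  | succ n ih =>
    choose S hS1 hS2 using ih
    refine ⟨(nbrs p).biUnion S, ?_, fun q hq => ?_⟩
    · calc ((nbrs p).biUnion S).card ≤ (nbrs p).card * 8 ^ n :=
            card_biUnion_le_card_mul _ _ _ fun r _ => hS1 r
        _ ≤ 8 * 8 ^ n := Nat.mul_le_mul_right _ (card_nbrs p)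
        _ = 8 ^ (n + 1) := by ring
    · obtain ⟨r, hr, h'⟩ := hq
      exact mem_biUnion.2 ⟨r, mem_nbrs hr, hS2 r q h'⟩

theorem adj_depth {p q : V} (h : Adj p q) : |p.1 - q.1| ≤ 1 := by
  rcases h with h | h
  · rcases edge_cases h with rfl | rfl | rfl | rfl <;> simp
  · rcases edge_cases' h with rfl | rfl | rfl <;> simp

theorem near_depth {n : ℕ} {p q : V} (h : Near n p q) : |p.1 - q.1| ≤ n := by
  induction n generalizing p with
  | zero => rw [show p = q from h]; simp
  | succ n ih =>
    obtain ⟨r, hr, h'⟩ := h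
    have h1 := ih h'
    have h2 : |p.1 - r.1| ≤ 1 := by
      rcases hr with rfl | hr
      · simp
      · exact adj_depth hr
    calc |p.1 - q.1| = |(p.1 - r.1) + (r.1 - q.1)| := by ring_nf
      _ ≤ |p.1 - r.1| + |r.1 - q.1| := abs_add_le _ _
      _ ≤ 1 + n := add_le_add h2 h1
      _ = ((n + 1 : ℕ) : ℤ) := by push_cast; ring

theorem adj_child (v : V) (j : ℕ) (c : ℕ) (hc : c / 2 = j) (a : ℕ) :
    Adj (desc v a j) (desc v (a + 1) c) := by
  subst hc
  left
  have h := Nat.div_add_mod c 2
  rcases Nat.mod_two_eq_zero_or_one c with h0 | h0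
  · have : desc v (a + 1) c = ((desc v a (c / 2)).1 + 1, 2 * (desc v a (c / 2)).2) := by
      have hc : (c : ℤ) = 2 * ((c / 2 : ℕ) : ℤ) := by omega
      unfold desc
      ext
      · push_cast; ring
      · show (2 : ℤ) ^ (a + 1) * v.2 + (c : ℤ) = 2 * (2 ^ a * v.2 + ((c / 2 : ℕ) : ℤ))
        rw [pow_succ]; linarith
    rw [this]
    exact Edge.left _ _
  · have : desc v (a + 1) c = ((desc v a (c / 2)).1 + 1, 2 * (desc v a (c / 2)).2 + 1) := by
      have hc : (c : ℤ) = 2 * ((c / 2 : ℕ) : ℤ) + 1 := by omega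
      unfold desc
      ext
      · push_cast; ring
      · show (2 : ℤ) ^ (a + 1) * v.2 + (c : ℤ) = 2 * (2 ^ a * v.2 + ((c / 2 : ℕ) : ℤ)) + 1
        rw [pow_succ]; linarith
    rw [this]
    exact Edge.right _ _

theorem ray_adj (v : V) (n i a : ℕ) (ha : a < n) : Adj (ray v n i a) (ray v n i (a + 1)) := by
  unfold ray
  refine adj_child v _ _ ?_ a
  rw [Nat.div_div_eq_div_mul, ← pow_succ, show n - (a + 1) + 1 = n - a by omega]

theorem ray_zero (v : V) (n i : ℕ) (hi : i < 2 ^ n) : ray v n i 0 = v := by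
  unfold ray desc
  rw [Nat.sub_zero, Nat.div_eq_of_lt hi]
  simp

theorem ray_last (v : V) (n i : ℕ) : ray v n i n = desc v n i := by
  unfold ray
  simp

theorem ray_near (v : V) (n i a b : ℕ) (hab : a ≤ b) (hb : b ≤ n) :
    Near (b - a) (ray v n i a) (ray v n i b) := by
  obtain ⟨k, rfl⟩ := Nat.exists_eq_add_of_le hab
  rw [Nat.add_sub_cancel_left]
  induction k with
  | zero => exact Near.refl 0 _
  | succ k ih =>
    exact (ih (by omega) (by omega)).trans (Near.of_adj (ray_adj v n i (a + k) (by omega)))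

theorem desc_desc (v : V) (a b i j : ℕ) :
    desc (desc v a i) b j = desc v (a + b) (2 ^ b * i + j) := by
  unfold desc
  ext
  · push_cast; ring
  · push_cast; ring

/-- The rays are compatible with restarting at the vertex at depth `a`. -/
theorem ray_ray (v : V) (n i a m b : ℕ) (ham : a + m ≤ n) (hb : b ≤ m) :
    ray (ray v n i a) m (i / 2 ^ (n - (a + m)) % 2 ^ m) b = ray v n i (a + b) := by
  unfold ray
  rw [desc_desc]
  congr 1
  -- arithmetic
  set x := i / 2 ^ (n - (a + m)) with hx
  have h1 : i / 2 ^ (n - a) = x / 2 ^ m := by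
    rw [hx, Nat.div_div_eq_div_mul, ← pow_add]
    congr 2; omega
  have h2 : i / 2 ^ (n - (a + b)) = x / 2 ^ (m - b) := by
    rw [hx, Nat.div_div_eq_div_mul, ← pow_add]
    congr 2; omega
  rw [h1, h2]
  obtain ⟨c, rfl⟩ := Nat.exists_eq_add_of_le hb
  rw [Nat.add_sub_cancel_left]
  have h3 := Nat.div_add_mod x (2 ^ (b + c))
  conv_rhs => rw [← h3]
  rw [pow_add, mul_comm (2 ^ b) (2 ^ c), mul_assoc, Nat.mul_add_div (by positivity)]

namespace Coarse
variable {Λ : ℝ} {X Y T : V → ℝ}

theorem pos (h : Coarse Λ X Y T) : 0 < Λ := lt_of_lt_of_le one_pos h.one_le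

theorem near_T (h : Coarse Λ X Y T) {n : ℕ} {p q : V} (hn : Near n p q) :
    |T p - T q| ≤ Λ * n := by
  induction n generalizing p with
  | zero => rw [show p = q from hn]; simp
  | succ n ih =>
    obtain ⟨r, hr, h'⟩ := hn
    have h1 := ih h'
    have h2 : |T p - T r| ≤ Λ := by
      rcases hr with rfl | hr
      · simpa using h.pos.le
      · exact h.t_step _ _ hr
    calc |T p - T q| = |(T p - T r) + (T r - T q)| := by ring_nf
      _ ≤ |T p - T r| + |T r - T q| := abs_add_le _ _
      _ ≤ Λ + Λ * n := add_le_add h2 h1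
      _ = Λ * ((n + 1 : ℕ) : ℝ) := by push_cast; ring

theorem near_X (h : Coarse Λ X Y T) {n : ℕ} {p q : V} (hn : Near n p q) :
    |X p - X q| ≤ n * Λ * exp (-T p + Λ * n) := by
  have hΛ := h.pos
  induction n generalizing p with
  | zero => rw [show p = q from hn]; simp
  | succ n ih =>
    obtain ⟨r, hr, h'⟩ := hn
    have h1 := ih h'
    have h2 : |T p - T r| ≤ Λ ∧ |X p - X r| ≤ Λ * exp (-T p) := by
      rcases hr with rfl | hr
      · simpa using ⟨h.pos.le, by positivity⟩
      · exact ⟨h.t_step _ _ hr, h.x_step _ _ hr⟩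
    have h3 := abs_le.1 h2.1
    have h4 : exp (-T r + Λ * n) ≤ exp (-T p + Λ * ((n + 1 : ℕ) : ℝ)) := by
      apply exp_le_exp.2; push_cast; linarith
    have h5 : exp (-T p) ≤ exp (-T p + Λ * ((n + 1 : ℕ) : ℝ)) := by
      apply exp_le_exp.2
      have : 0 ≤ Λ * ((n + 1 : ℕ) : ℝ) := by positivity
      linarith
    calc |X p - X q| = |(X p - X r) + (X r - X q)| := by ring_nf
      _ ≤ |X p - X r| + |X r - X q| := abs_add_le _ _
      _ ≤ Λ * exp (-T p) + n * Λ * exp (-T r + Λ * n) := add_le_add h2.2 h1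
      _ ≤ Λ * exp (-T p + Λ * ((n + 1 : ℕ) : ℝ)) +
          n * Λ * exp (-T p + Λ * ((n + 1 : ℕ) : ℝ)) := by gcongr
      _ = ((n + 1 : ℕ) : ℝ) * Λ * exp (-T p + Λ * ((n + 1 : ℕ) : ℝ)) := by push_cast; ring

theorem swap_aux {a b : ℝ} : |(-a) - b| = |a + b| := by
  rw [show -a - b = -(a + b) by ring, abs_neg]

/-- The symmetry `(x, y, t) ↦ (y, x, -t)`. -/
theorem swap (h : Coarse Λ X Y T) : Coarse Λ Y X (fun p => - T p) where
  one_le := h.one_le
  t_step p q hpq := by
    have := h.t_step p q hpq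
    rwa [show -T p - -T q = -(T p - T q) by ring, abs_neg]
  x_step p q hpq := by simpa using h.y_step p q hpq
  y_step p q hpq := by simpa using h.x_step p q hpq
  lower p q a b n hn := by
    apply Near.symm
    apply h.lower q p (-b) (-a) n
    refine le_trans (le_of_eq ?_) hn
    rw [neg_neg, abs_sub_comm (X q), abs_sub_comm (Y q)]
    have e1 : |T q - -b| = |b - -T q| := by ring_nf
    have e2 : |-a - -b| = |b - a| := by ring_nf
    have e3 : |-a - T p| = |-T p - a| := by ring_nf
    rw [e1, e2, e3]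
    ring

theorem near_Y (h : Coarse Λ X Y T) {n : ℕ} {p q : V} (hn : Near n p q) :
    |Y p - Y q| ≤ n * Λ * exp (T p + Λ * n) := by
  simpa using h.swap.near_X hn

theorem near_X_of_nonneg (h : Coarse Λ X Y T) (hT : ∀ p, 0 ≤ T p) {n : ℕ} {p q : V}
    (hn : Near n p q) : |X p - X q| ≤ Λ * n := by
  have hΛ := h.pos
  induction n generalizing p with
  | zero => rw [show p = q from hn]; simp
  | succ n ih =>
    obtain ⟨r, hr, h'⟩ := hn
    have h1 := ih h'
    have h2 : |X p - X r| ≤ Λ := by
      rcases hr with rfl | hr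
      · simpa using h.pos.le
      · refine (h.x_step _ _ hr).trans ?_
        have : exp (-T p) ≤ 1 := by
          rw [exp_le_one_iff]; linarith [hT p]
        nlinarith
    calc |X p - X q| = |(X p - X r) + (X r - X q)| := by ring_nf
      _ ≤ |X p - X r| + |X r - X q| := abs_add_le _ _
      _ ≤ Λ + Λ * n := add_le_add h2 h1
      _ = Λ * ((n + 1 : ℕ) : ℝ) := by push_cast; ring

/-- The reflection `x ↦ -x`. -/
theorem neg_X (h : Coarse Λ X Y T) : Coarse Λ (fun p => - X p) Y T where
  one_le := h.one_le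
  t_step := h.t_step
  x_step p q hpq := by
    have := h.x_step p q hpq
    rwa [show -X p - -X q = -(X p - X q) by ring, abs_neg]
  y_step := h.y_step
  lower p q a b n hn := by
    apply h.lower p q a b n
    refine le_trans (le_of_eq ?_) hn
    rw [show -X p - -X q = -(X p - X q) by ring, abs_neg]

/-- Isometries `(x, y, t) ↦ (e^{τ} (x - x₀), e^{-τ} (y - y₀), t - τ)`. -/
theorem shift (h : Coarse Λ X Y T) (x₀ y₀ τ : ℝ) :
    Coarse Λ (fun p => exp τ * (X p - x₀)) (fun p => exp (-τ) * (Y p - y₀))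
      (fun p => T p - τ) where
  one_le := h.one_le
  t_step p q hpq := by
    have := h.t_step p q hpq
    rwa [show T p - τ - (T q - τ) = T p - T q by ring]
  x_step p q hpq := by
    have := h.x_step p q hpq
    rw [show exp τ * (X p - x₀) - exp τ * (X q - x₀) = exp τ * (X p - X q) by ring, abs_mul,
      abs_of_pos (exp_pos τ), show -(T p - τ) = τ + -T p by ring, exp_add]
    nlinarith [exp_pos τ]
  y_step p q hpq := by
    have := h.y_step p q hpq
    rw [show exp (-τ) * (Y p - y₀) - exp (-τ) * (Y q - y₀) = exp (-τ) * (Y p - Y q) by ring,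
      abs_mul, abs_of_pos (exp_pos (-τ)), show T p - τ = -τ + T p by ring, exp_add]
    nlinarith [exp_pos (-τ)]
  lower p q a b n hn := by
    apply h.lower p q (a + τ) (b + τ) n
    refine le_trans (le_of_eq ?_) hn
    have e1 : |T p - (a + τ)| = |T p - τ - a| := by ring_nf
    have e2 : |b + τ - (a + τ)| = |b - a| := by ring_nf
    have e3 : |b + τ - T q| = |b - (T q - τ)| := by ring_nf
    have e4 : exp (a + τ) * |X p - X q| = exp a * |exp τ * (X p - x₀) - exp τ * (X q - x₀)| := by
      rw [show exp τ * (X p - x₀) - exp τ * (X q - x₀) = exp τ * (X p - X q) by ring, abs_mul,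
        abs_of_pos (exp_pos τ), exp_add]
      ring
    have e5 : exp (-(b + τ)) * |Y p - Y q| =
        exp (-b) * |exp (-τ) * (Y p - y₀) - exp (-τ) * (Y q - y₀)| := by
      rw [show exp (-τ) * (Y p - y₀) - exp (-τ) * (Y q - y₀) = exp (-τ) * (Y p - Y q) by ring,
        abs_mul, abs_of_pos (exp_pos (-τ)), show -(b + τ) = -b + -τ by ring, exp_add]
      ring
    rw [e1, e2, e3, e4, e5]

end Coarse

end Helper67.SQ
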