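import Pool.Agent.Helper67.SQ.Defs

/-!
# The combinatorial model of the hyperbolic plane and coarse embeddings in Sol
-/

namespace Helper67.SQ

open Real

/-! ## The combinatorial model of the hyperbolic plane

The vertex `(d, j)` stands for the point `2^{-d} (j + i)` of the upper half plane. `d` is the depth. -/


/-- Vertices of the binary tiling: `(depth, index)`. -/
abbrev V := ℤ × ℤ

/-- The edges of the triangulated binary tiling. -/
inductive Edge : V → V → Prop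
  | horiz (d j : ℤ) : Edge (d, j) (d, j + 1)
  | left (d j : ℤ) : Edge (d, j) (d + 1, 2 * j)
  | right (d j : ℤ) : Edge (d, j) (d + 1, 2 * j + 1)
  | diag (d j : ℤ) : Edge (d, j + 1) (d + 1, 2 * j + 1)

/-- Adjacency. -/
def Adj (p q : V) : Prop := Edge p q ∨ Edge q p

/-- `Near n p q`: the graph distance of `p` and `q` is at most `n`. -/
def Near : ℕ → V → V → Prop
  | 0, p, q => p = q
  | n + 1, p, q => ∃ r, (p = r ∨ Adj p r) ∧ Near n r q

/-- The `i`-th descendant of `v` at `m` levels below `v`, `0 ≤ i < 2 ^ m`. -/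
def desc (v : V) (m i : ℕ) : V := (v.1 + m, 2 ^ m * v.2 + i)

/-- The vertex `a` levels below `v` on the descending path from `v` to `desc v n i`. -/
def ray (v : V) (n i a : ℕ) : V := desc v a (i / 2 ^ (n - a))

/-- A coarse embedding of the vertex set into `Sol`, in terms of the coordinate functions. -/
structure Coarse (Λ : ℝ) (X Y T : V → ℝ) : Prop where
  one_le : 1 ≤ Λ
  t_step : ∀ p q, Adj p q → |T p - T q| ≤ Λ
  x_step : ∀ p q, Adj p q → |X p - X q| ≤ Λ * exp (-T p)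
  y_step : ∀ p q, Adj p q → |Y p - Y q| ≤ Λ * exp (T p)
  lower : ∀ (p q : V) (a b : ℝ) (n : ℕ),
    Λ * (|T p - a| + exp a * |X p - X q| + |b - a| + exp (-b) * |Y p - Y q| + |b - T q| + 1)
      ≤ n → Near n p q

/-! ## Regions of the binary tiling -/

/-- Descending paths. -/
def IsDesc (n : ℕ) (l : ℕ → ℤ) : Prop := ∀ k < n, l (k + 1) = 2 * l k ∨ l (k + 1) = 2 * l k + 1

/-- The region between two descending paths `l ≤ r` which start at depth `s`. -/
def Reg (s : ℤ) (n : ℕ) (l r : ℕ → ℤ) : Set V :=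
  {q | ∃ k : ℕ, k ≤ n ∧ q.1 = s + k ∧ l k ≤ q.2 ∧ q.2 ≤ r k}

/-- The interior of the region. -/
def Int' (s : ℤ) (n : ℕ) (l r : ℕ → ℤ) : Set V :=
  {q | ∃ k : ℕ, 0 < k ∧ k < n ∧ q.1 = s + k ∧ l k < q.2 ∧ q.2 < r k}

/-- The big window: descending from the vertices `u - 1, …, u + 2` at depth `s - N` down to
depth `s + n`. -/
def Win (s : ℤ) (N n : ℕ) (u : ℤ) : Set V :=
  {q | ∃ k : ℕ, k ≤ N + n ∧ q.1 = s - N + k ∧ (u - 1) * 2 ^ k ≤ q.2 ∧ q.2 ≤ (u + 2) * 2 ^ k}

/-- Trichromatic triangles. -/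
def Tri (col : V → Fin 3) (p₀ p₁ p₂ : V) : Prop :=
  Adj p₀ p₁ ∧ Adj p₁ p₂ ∧ Adj p₀ p₂ ∧ col p₀ = 0 ∧ col p₁ = 1 ∧ col p₂ = 2

/-! ## Quantities for the coarse differentiation -/

/-- `M X T c p = max (e^{-t}, |x - c|)`; `- log M` is the quantity which does not grow along
typical rays. -/
noncomputable def M (X T : V → ℝ) (c : ℝ) (p : V) : ℝ := max (exp (-T p)) |X p - c|

/-- `τ` is non-decreasing on `[0, r]` up to `e`. -/
def UpTo (τ : ℕ → ℝ) (r : ℕ) (e : ℝ) : Prop := ∀ b b', b ≤ b' → b' ≤ r → τ b ≤ τ b' + e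

/-- The vertices, as points of the upper half plane, with base point `p`. -/
noncomputable def vert (p : UpperHalfPlane) (v : V) : UpperHalfPlane :=
  ⟨⟨p.re + p.im * (2 : ℝ) ^ (-v.1) * v.2, p.im * (2 : ℝ) ^ (-v.1)⟩,
    mul_pos p.im_pos (zpow_pos (by norm_num) _)⟩

end Helper67.SQ
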