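import Mathlib

/-!
# Quasi-isometric embeddings of the hyperbolic plane into Sol: definitions
-/

namespace Helper67.SQ

open Real

/-- Points of `Sol`, with the coordinates `(x, y, t)`. -/
structure Sol where
  x : ℝ
  y : ℝ
  t : ℝ

/-- `IsArc P Q ℓ`: there is a `C¹` curve `s ↦ (x s, y s, t s)`, `0 ≤ s ≤ 1`, from `P` to `Q`, whose
length in the metric `e^{2t} dx² + e^{-2t} dy² + dt²` is `ℓ`. -/
def IsArc (P Q : Sol) (ℓ : ℝ) : Prop :=
  ∃ x y t x' y' t' : ℝ → ℝ,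
    (∀ s, HasDerivAt x (x' s) s) ∧ (∀ s, HasDerivAt y (y' s) s) ∧
    (∀ s, HasDerivAt t (t' s) s) ∧
    Continuous x' ∧ Continuous y' ∧ Continuous t' ∧
    x 0 = P.x ∧ y 0 = P.y ∧ t 0 = P.t ∧ x 1 = Q.x ∧ y 1 = Q.y ∧ t 1 = Q.t ∧
    ℓ = ∫ s in (0 : ℝ)..1,
      √(exp (2 * t s) * x' s ^ 2 + exp (-2 * t s) * y' s ^ 2 + t' s ^ 2)

/-- `IsPath P Q ℓ`: there is a piecewise `C¹` curve from `P` to `Q` of length `ℓ`. -/
inductive IsPath : Sol → Sol → ℝ → Prop
  | nil (P : Sol) : IsPath P P 0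
  | cons {P Q R : Sol} {ℓ ℓ' : ℝ} : IsArc P Q ℓ → IsPath Q R ℓ' → IsPath P R (ℓ + ℓ')

/-- The Riemannian distance of `Sol`: the infimum of the lengths of the piecewise `C¹` curves
which join the two points. -/
noncomputable def solDist (P Q : Sol) : ℝ := sInf {ℓ | IsPath P Q ℓ}

/-- `(K, C)`-quasi-isometric embeddings of the hyperbolic plane (the upper half plane with its
hyperbolic metric of curvature `-1`) into `Sol`. -/
def IsQIEmb (K C : ℝ) (φ : UpperHalfPlane → Sol) : Prop :=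
  ∀ p q : UpperHalfPlane, dist p q / K - C ≤ solDist (φ p) (φ q) ∧
    solDist (φ p) (φ q) ≤ K * dist p q + C

/-- `A`-quasivertical maps: for every `p` there is a vertical line
`ℓ = {(x₀, y₀, τ) : τ ∈ ℝ}` such that `φ p` is at distance at most `A` from a point of `ℓ` and every
point of `ℓ` is at distance at most `A` from a point of the image. -/
def IsQuasivertical (A : ℝ) (φ : UpperHalfPlane → Sol) : Prop :=
  ∀ p : UpperHalfPlane, ∃ x₀ y₀ : ℝ,
    (∃ τ : ℝ, solDist (φ p) ⟨x₀, y₀, τ⟩ ≤ A) ∧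
    ∀ τ : ℝ, ∃ q : UpperHalfPlane, solDist ⟨x₀, y₀, τ⟩ (φ q) ≤ A

end Helper67.SQ
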