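import Pool.Agent.Helper67.SQ.TwoStrand
import Pool.Agent.Helper40.SQ.Nonconc
import Pool.Agent.Helper5.SQ.Returns
import Pool.Agent.Helper84.SQ.NoHalf
import Pool.Agent.Helper50.SQ.Effective
import Pool.Agent.Helper44.SQ.Hyp
import Pool.Agent.Helper45.SQ.Vertical

/-!
# Quasi-isometric embeddings of the hyperbolic plane in Sol are quasivertical
-/

namespace Helper67.SQ

open Real

/-- No coarse embedding of the hyperbolic plane in the half space `t ≥ 0` of Sol. -/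
theorem no_halfspace (Λ : ℝ) (hΛ : 1 ≤ Λ) (X Y T : V → ℝ) (h : Coarse Λ X Y T)
    (hT : ∀ p, 0 ≤ T p) : False :=
  no_halfspace_of Λ hΛ (returns_of Λ (two_strand Λ hΛ)
    (fun ε κ hε hκ => nonconc Λ ε κ hΛ hε hκ)) X Y T h hT

/-- Effective version. -/
theorem effective (Λ : ℝ) (hΛ : 1 ≤ Λ) : ∃ R : ℕ, ∀ X Y T : V → ℝ, Coarse Λ X Y T →
    ∃ q, Near R (0, 0) q ∧ T q < T (0, 0) - 1 :=
  effective_aux Λ hΛ (no_halfspace (2 * Λ) (by linarith))

/-- Every `(K, C)`-quasi-isometric embedding of the hyperbolic plane in Sol is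
`A(K, C)`-quasivertical. -/
theorem main (K C : ℝ) (hK : 1 ≤ K) (hC : 0 ≤ C) : ∃ A : ℝ, 0 ≤ A ∧
    ∀ φ : UpperHalfPlane → Sol, IsQIEmb K C φ → IsQuasivertical A φ := by
  obtain ⟨Λ, hΛ, hco⟩ := coarse_of_qi K C hK hC
  obtain ⟨R, hR⟩ := effective Λ hΛ
  obtain ⟨A, hA, hq⟩ := quasivertical_of K C R hK hC (by positivity)
  refine ⟨A, hA, fun φ hφ => hq φ hφ ?_ ?_⟩
  · intro p
    obtain ⟨q, hq1, hq2⟩ := hR _ _ _ (hco φ hφ p)
    refine ⟨vert p q, ?_, ?_⟩
    · have := vert_near p R (0, 0) q hq1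
      rwa [vert_zero] at this
    · simpa [vert_zero] using hq2
  · intro p
    obtain ⟨q, hq1, hq2⟩ := hR _ _ _ (hco φ hφ p).swap
    refine ⟨vert p q, ?_, ?_⟩
    · have := vert_near p R (0, 0) q hq1
      rwa [vert_zero] at this
    · simp only [vert_zero] at hq2
      linarith

end Helper67.SQ
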