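import Pool.Agent.Helper14.SQ.Volume
import Pool.Agent.Helper16.SQ.Sperner
import Pool.Agent.Helper45.SQ.Walk
import Pool.Agent.Helper67.SQ.Asym

/-!
# The two strand lemma, part A: local statements
-/

namespace Helper67.SQ

open Real Finset MeasureTheory

variable {Λ : ℝ} {X Y T : V → ℝ}

/-- The function which measures how far one has to go up from `v` to reach `q`. -/
noncomputable def gg (Y T : V → ℝ) (v q : V) : ℝ := max (exp (T q)) |Y q - Y v|

/-- `p` is close to the target `(c, Z)`. -/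
structure Hits (Λ : ℝ) (X Y T : V → ℝ) (v : V) (H c Z : ℝ) (p : V) : Prop where
  x : |X p - c| ≤ Λ * exp (-T p)
  g : |gg Y T v p - Z| ≤ exp Λ * exp (T p)
  t : T p ≤ H + 1 + Λ
  y : |Y p - Y v| ≤ 2 * exp H + Λ * exp (T p)
  y' : |Y p - Y v| ≤ (2 + 2 * Λ) * exp H

theorem hits_of_tri (h : Coarse Λ X Y T) {v p₀ p₁ p₂ : V} {H c Z : ℝ}
    (hZ : Z < 2 * exp H) (h01 : Adj p₀ p₁) (h12 : Adj p₁ p₂) (g0 : gg Y T v p₀ < Z)
    (g1 : Z ≤ gg Y T v p₁) (x1 : X p₁ < c) (x2 : c ≤ X p₂) : Hits Λ X Y T v H c Z p₁ := by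
  have hΛ := h.pos
  have hΛ1 := h.one_le
  have e0 : exp (T p₀) ≤ gg Y T v p₀ := le_max_left _ _
  have y0 : |Y p₀ - Y v| ≤ gg Y T v p₀ := le_max_right _ _
  have hT01 := abs_le.1 (h.t_step _ _ h01)
  have hY1 : |Y p₁ - Y p₀| ≤ Λ * exp (T p₁) := h.y_step _ _ h01.symm
  have hY0 : |Y p₁ - Y p₀| ≤ Λ * exp (T p₀) := by
    rw [abs_sub_comm]; exact h.y_step _ _ h01
  have hYY : |Y p₁ - Y v| ≤ |Y p₁ - Y p₀| + |Y p₀ - Y v| := abs_sub_le _ _ _
  have hΛe : Λ ≤ exp Λ := by linarith [add_one_le_exp Λ]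
  refine ⟨?_, ?_, ?_, ?_, ?_⟩
  · have := h.x_step _ _ h12
    rw [abs_sub_comm] at this ⊢
    have h1 : |c - X p₁| ≤ |X p₂ - X p₁| := by
      rw [abs_of_nonneg (by linarith), abs_of_nonneg (by linarith)]; linarith
    linarith
  · rw [abs_of_nonneg (by linarith)]
    rcases le_total (exp (T p₁)) |Y p₁ - Y v| with hc | hc
    · have : gg Y T v p₁ = |Y p₁ - Y v| := max_eq_right hc
      have h2 : Λ * exp (T p₁) ≤ exp Λ * exp (T p₁) := by gcongr
      linarith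
    · have : gg Y T v p₁ = exp (T p₁) := max_eq_left hc
      have h2 : 1 * exp (T p₁) ≤ exp Λ * exp (T p₁) := by gcongr; linarith
      have h3 := exp_pos (T p₀)
      linarith
  · have h1 : exp (T p₀) < exp (H + 1) := by
      calc exp (T p₀) < 2 * exp H := by linarith
        _ ≤ exp 1 * exp H := by gcongr; linarith [add_one_le_exp (1 : ℝ)]
        _ = exp (H + 1) := by rw [← exp_add]; ring_nf
    have := exp_lt_exp.1 h1
    linarith [hT01.1]
  · linarith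
  · have h1 : Λ * exp (T p₀) ≤ Λ * (2 * exp H) := by gcongr; linarith
    nlinarith [exp_pos H]

/-- If `gg` is small then one is not far away. -/
theorem near_of_gg (h : Coarse Λ X Y T) (hT : ∀ p, 0 ≤ T p) {v q : V} {b w : ℝ} {m : ℕ}
    (hb : 0 ≤ b) (hw : 0 ≤ w) (hx : |X v - X q| ≤ w) (hq : T q ≤ b + 1)
    (hy : |Y v - Y q| ≤ 2 * exp b)
    (hm : Λ * (T v + 2 * log (w + 1) + 2 * b + 5) ≤ m) : Near m v q := by
  have hΛ := h.pos
  have hlw : 0 ≤ log (w + 1) := log_nonneg (by linarith)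
  apply h.lower v q (-log (w + 1)) b m
  refine le_trans ?_ hm
  apply mul_le_mul_of_nonneg_left _ hΛ.le
  have h1 : |T v - -log (w + 1)| = T v + log (w + 1) := by
    rw [sub_neg_eq_add, abs_of_nonneg (by linarith [hT v])]
  have h2 : exp (-log (w + 1)) * |X v - X q| ≤ 1 := by
    rw [exp_neg, exp_log (by linarith), inv_mul_le_iff₀ (by linarith)]
    linarith
  have h3 : |b - -log (w + 1)| = b + log (w + 1) := by
    rw [sub_neg_eq_add, abs_of_nonneg (by linarith)]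
  have h4 : exp (-b) * |Y v - Y q| ≤ 2 := by
    rw [exp_neg, inv_mul_le_iff₀ (exp_pos b)]
    linarith
  have h5 : |b - T q| ≤ b + 1 := by
    rw [abs_le]; constructor <;> linarith [hT q]
  rw [h1, h3]
  linarith

theorem boundary_far (h : Coarse Λ X Y T) (hT : ∀ p, 0 ≤ T p) {v : V} {u : ℤ} {n : ℕ}
    (hu1 : u * 2 ^ n ≤ v.2) (hu2 : v.2 < (u + 1) * 2 ^ n) {H : ℝ} (hH : 0 ≤ H)
    (hn : 2 ≤ n)
    (hE : Λ * (T v + 2 * log (Λ * (3 * n + 3) + 1) + 2 * H + 5) ≤ (n : ℝ) - 2) {q : V}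
    (hq : q ∈ Win v.1 n n u)
    (hb : (∃ i : ℤ, q = (v.1 + n, i)) ∨ (∃ i : ℤ, q = (v.1 - n, i)) ∨
      (∃ k : ℕ, q = (v.1 - n + k, (u - 1) * 2 ^ k)) ∨
      (∃ k : ℕ, q = (v.1 - n + k, (u + 2) * 2 ^ k))) :
    2 * exp H ≤ gg Y T v q := by
  have hΛ := h.pos
  by_contra hcon
  push Not at hcon
  have e0 : exp (T q) ≤ gg Y T v q := le_max_left _ _
  have y0 : |Y q - Y v| ≤ gg Y T v q := le_max_right _ _
  have hnear : Near (2 * n + n + 3) v q := win_near v.1 v.2 u n n hu1 hu2 q hq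
  have hx := h.near_X_of_nonneg hT hnear
  have hTq : T q ≤ H + 1 := by
    have h1 : exp (T q) < exp (H + 1) := by
      calc exp (T q) < 2 * exp H := by linarith
        _ ≤ exp 1 * exp H := by gcongr; linarith [add_one_le_exp (1 : ℝ)]
        _ = exp (H + 1) := by rw [← exp_add]; ring_nf
    exact (exp_lt_exp.1 h1).le
  have hm : Near (n - 2) v q := by
    apply near_of_gg h hT hH (w := Λ * (3 * n + 3)) (by positivity) _ hTq
      (by rw [abs_sub_comm]; linarith)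
    · rw [Nat.cast_sub hn]; push_cast; exact hE
    · refine hx.trans (le_of_eq ?_)
      push_cast; ring
  have := far v.1 v.2 u n n (n - 2) hu1 hu2 q hm hb
  omega

theorem ray_fst (v : V) (n i a : ℕ) : (ray v n i a).1 = v.1 + a := rfl

theorem ray_snd_succ (v : V) (n i a : ℕ) (ha : a < n) :
    (ray v n i (a + 1)).2 = 2 * (ray v n i a).2 ∨
      (ray v n i (a + 1)).2 = 2 * (ray v n i a).2 + 1 := by
  have h1 : i / 2 ^ (n - a) = i / 2 ^ (n - (a + 1)) / 2 := by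
    rw [Nat.div_div_eq_div_mul, ← pow_succ, show n - (a + 1) + 1 = n - a by omega]
  show (2 : ℤ) ^ (a + 1) * v.2 + ((i / 2 ^ (n - (a + 1)) : ℕ) : ℤ) =
      2 * (2 ^ a * v.2 + ((i / 2 ^ (n - a) : ℕ) : ℤ)) ∨
    (2 : ℤ) ^ (a + 1) * v.2 + ((i / 2 ^ (n - (a + 1)) : ℕ) : ℤ) =
      2 * (2 ^ a * v.2 + ((i / 2 ^ (n - a) : ℕ) : ℤ)) + 1
  rw [h1]
  generalize i / 2 ^ (n - (a + 1)) = c
  have : (c : ℤ) = 2 * ((c / 2 : ℕ) : ℤ) ∨ (c : ℤ) = 2 * ((c / 2 : ℕ) : ℤ) + 1 := by omega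
  rcases this with h | h
  · left; rw [pow_succ]; linarith
  · right; rw [pow_succ]; linarith

theorem ray_snd_mono (v : V) (n i j a : ℕ) (hij : i ≤ j) : (ray v n i a).2 ≤ (ray v n j a).2 := by
  show (2 : ℤ) ^ a * v.2 + ((i / 2 ^ (n - a) : ℕ) : ℤ) ≤
    2 ^ a * v.2 + ((j / 2 ^ (n - a) : ℕ) : ℤ)
  have : i / 2 ^ (n - a) ≤ j / 2 ^ (n - a) := Nat.div_le_div_right hij
  exact_mod_cast add_le_add_right (by exact_mod_cast this) _

theorem both_sides (h : Coarse Λ X Y T) (hT : ∀ p, 0 ≤ T p) {v : V} {u : ℤ} {n : ℕ}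
    (hu1 : u * 2 ^ n ≤ v.2) (hu2 : v.2 < (u + 1) * 2 ^ n) {H : ℝ} (hH : 0 ≤ H)
    (hn : 2 ≤ n)
    (hE : Λ * (T v + 2 * log (Λ * (3 * n + 3) + 1) + 2 * H + 5) ≤ (n : ℝ) - 2)
    {i₁ i₂ : ℕ} (hi₁ : i₁ < 2 ^ n) (hi₂ : i₂ < 2 ^ n) (h12 : i₁ ≤ i₂) {c₁ c₂ c Z : ℝ}
    (hc1 : c₁ < c) (hc2 : c ≤ c₂) (hZ1 : exp H < Z) (hZ2 : Z < 2 * exp H)
    (hr1 : ∀ a ≤ n, X (ray v n i₁ a) ≤ c₁ ∨ gg Y T v (ray v n i₁ a) ≤ exp H)
    (hr2 : ∀ a ≤ n, c₂ ≤ X (ray v n i₂ a) ∨ gg Y T v (ray v n i₂ a) ≤ exp H) :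
    (∃ p, p ∈ Reg v.1 n (fun k => (ray v n i₁ k).2) (fun k => (ray v n i₂ k).2) ∧
      p ∈ Win v.1 n n u ∧ Hits Λ X Y T v H c Z p) ∧
    (∃ p, p ∉ Int' v.1 n (fun k => (ray v n i₁ k).2) (fun k => (ray v n i₂ k).2) ∧
      p ∈ Win v.1 n n u ∧ Hits Λ X Y T v H c Z p) := by
  classical
  set col : V → Fin 3 := fun p => if gg Y T v p < Z then 0 else if X p < c then 1 else 2
    with hcol
  have c0 : ∀ p, col p = 0 → gg Y T v p < Z := by
    intro p hp
    by_contra hcon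
    simp only [hcol, if_neg hcon] at hp
    split_ifs at hp <;> simp_all
  have c0' : ∀ p, col p ≠ 0 → Z ≤ gg Y T v p := by
    intro p hp
    by_contra hcon
    push Not at hcon
    simp only [hcol, if_pos hcon] at hp
    exact hp rfl
  have c1 : ∀ p, col p = 1 → X p < c := by
    intro p hp
    by_contra hcon
    simp only [hcol, if_neg hcon] at hp
    split_ifs at hp <;> simp_all
  have c2 : ∀ p, col p = 2 → c ≤ X p := by
    intro p hp
    by_contra hcon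
    push Not at hcon
    simp only [hcol, if_pos hcon] at hp
    split_ifs at hp <;> simp_all
  have far0 : ∀ q, q ∈ Win v.1 n n u → ((∃ i : ℤ, q = (v.1 + n, i)) ∨
      (∃ i : ℤ, q = (v.1 - n, i)) ∨ (∃ k : ℕ, q = (v.1 - n + k, (u - 1) * 2 ^ k)) ∨
      (∃ k : ℕ, q = (v.1 - n + k, (u + 2) * 2 ^ k))) → col q ≠ 0 := by
    intro q hq hb hc
    have h1 := boundary_far h hT hu1 hu2 hH hn hE hq hb
    have h2 := c0 q hc
    linarith
  have hP : ∀ k : ℕ, (0 : ℤ) < 2 ^ k := fun k => by positivity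
  have main := sperner_two col v.1 u n n (fun k => (ray v n i₁ k).2)
    (fun k => (ray v n i₂ k).2) (fun k hk => ray_snd_succ v n i₁ k hk)
    (fun k hk => ray_snd_succ v n i₂ k hk)
    (by simp only [ray_zero v n i₁ hi₁, ray_zero v n i₂ hi₂])
    (fun k _ => ray_snd_mono v n i₁ i₂ k h12)
    (by simpa only [ray_zero v n i₁ hi₁] using hu1)
    (by simpa only [ray_zero v n i₁ hi₁] using hu2)
    (by
      intro k hk hc
      have e : ((v.1 + (k : ℤ), (ray v n i₁ k).2) : V) = ray v n i₁ k := rfl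
      rw [e] at hc
      have h2 := c2 _ hc
      have h3 := c0' _ (by rw [hc]; decide)
      rcases hr1 k hk with h4 | h4 <;> linarith)
    (by
      intro k hk hc
      have e : ((v.1 + (k : ℤ), (ray v n i₂ k).2) : V) = ray v n i₂ k := rfl
      rw [e] at hc
      have h2 := c1 _ hc
      have h3 := c0' _ (by rw [hc]; decide)
      rcases hr2 k hk with h4 | h4 <;> linarith)
    (by
      intro i hi1 hi2
      refine far0 _ ⟨n + n, le_refl _, ?_, hi1, hi2⟩ (Or.inl ⟨i, rfl⟩)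
      push_cast; ring)
    (by
      intro i hi1 hi2
      refine far0 _ ⟨0, by omega, ?_, ?_, ?_⟩ (Or.inr (Or.inl ⟨i, rfl⟩))
      · simp
      · simpa using hi1
      · simpa using hi2)
    (by
      intro k hk
      refine far0 _ ⟨k, hk, rfl, le_refl _, ?_⟩ (Or.inr (Or.inr (Or.inl ⟨k, rfl⟩)))
      have := hP k
      simp only
      nlinarith)
    (by
      intro k hk
      refine far0 _ ⟨k, hk, rfl, ?_, le_refl _⟩ (Or.inr (Or.inr (Or.inr ⟨k, rfl⟩)))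
      have := hP k
      simp only
      nlinarith)
  obtain ⟨⟨p₀, p₁, p₂, ⟨a01, a12, a02, k0, k1, k2⟩, m1, m2⟩,
    ⟨q₀, q₁, q₂, ⟨b01, b12, b02, l0, l1, l2⟩, w1, w2⟩⟩ := main
  refine ⟨⟨p₁, m1, m2, ?_⟩, ⟨q₁, w1, w2, ?_⟩⟩
  · exact hits_of_tri h hZ2 a01 a12 (c0 _ k0) (c0' _ (by rw [k1]; decide)) (c1 _ k1) (c2 _ k2)
  · exact hits_of_tri h hZ2 b01 b12 (c0 _ l0) (c0' _ (by rw [l1]; decide)) (c1 _ l1) (c2 _ l2)

/-- Finitely many rectangles of small total area do not cover an open rectangle. -/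
theorem exists_uncovered {ι : Type*} (L : Finset ι) (x y r s : ι → ℝ) (A a b a' b' : ℝ)
    (hr : ∀ p ∈ L, 0 ≤ r p) (hs : ∀ p ∈ L, 0 ≤ s p) (hA : ∀ p ∈ L, 4 * (r p * s p) ≤ A)
    (hab : a ≤ b) (hlt : (L.card : ℝ) * A < (b - a) * (b' - a')) :
    ∃ c Z, a < c ∧ c < b ∧ a' < Z ∧ Z < b' ∧
      ∀ p ∈ L, ¬ (|x p - c| ≤ r p ∧ |y p - Z| ≤ s p) := by
  by_contra hcon
  push Not at hcon
  have hsub : Set.Ioo a b ×ˢ Set.Ioo a' b' ⊆
      ⋃ p ∈ L, (Set.Icc (x p - r p) (x p + r p) ×ˢ Set.Icc (y p - s p) (y p + s p)) := by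
    rintro ⟨c, Z⟩ ⟨⟨h1, h2⟩, h3, h4⟩
    obtain ⟨p, hp, h5, h6⟩ := hcon c Z h1 h2 h3 h4
    rw [abs_le] at h5 h6
    refine Set.mem_biUnion hp ⟨⟨?_, ?_⟩, ?_, ?_⟩ <;> simp only <;> linarith [h5.1, h5.2, h6.1, h6.2]
  have hm := measure_mono (μ := (volume : Measure (ℝ × ℝ))) hsub
  have h1 : (volume : Measure (ℝ × ℝ)) (Set.Ioo a b ×ˢ Set.Ioo a' b') =
      ENNReal.ofReal ((b - a) * (b' - a')) := by
    rw [Measure.volume_eq_prod, Measure.prod_prod, Real.volume_Ioo, Real.volume_Ioo,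
      ← ENNReal.ofReal_mul (by linarith)]
  have h2 : (volume : Measure (ℝ × ℝ))
      (⋃ p ∈ L, (Set.Icc (x p - r p) (x p + r p) ×ˢ Set.Icc (y p - s p) (y p + s p))) ≤
      ENNReal.ofReal (L.card * A) := by
    refine (measure_biUnion_finset_le _ _).trans ?_
    have h3 : ∀ p ∈ L, (volume : Measure (ℝ × ℝ))
        (Set.Icc (x p - r p) (x p + r p) ×ˢ Set.Icc (y p - s p) (y p + s p)) ≤
        ENNReal.ofReal A := by
      intro p hp
      rw [Measure.volume_eq_prod, Measure.prod_prod, Real.volume_Icc, Real.volume_Icc,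
        ← ENNReal.ofReal_mul (by linarith [hr p hp])]
      apply ENNReal.ofReal_le_ofReal
      have := hA p hp
      nlinarith
    refine (Finset.sum_le_sum h3).trans ?_
    rw [Finset.sum_const, nsmul_eq_mul, ENNReal.ofReal_mul (by positivity),
      ENNReal.ofReal_natCast]
  rw [h1] at hm
  have h4 := hm.trans h2
  have hpos : 0 < (b - a) * (b' - a') := by
    by_contra hneg
    push Not at hneg
    have hAnn : 0 ≤ (L.card : ℝ) * A := by
      rcases L.eq_empty_or_nonempty with rfl | ⟨p, hp⟩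
      · simp
      · have := hA p hp
        have := mul_nonneg (hr p hp) (hs p hp)
        have hA0 : 0 ≤ A := by linarith
        positivity
    have : 0 ≤ (b - a) * (b' - a') := mul_nonneg (by linarith) (by linarith)
    linarith
  rw [ENNReal.ofReal_le_ofReal_iff'] at h4
  rcases h4 with h4 | h4 <;> linarith


/-- A target which is only hit by high vertices. -/
theorem exists_target (h : Coarse Λ X Y T) {C : ℝ}
    (hC : ∀ (S : Finset V) (x₀ y₀ w H : ℝ) (m : ℕ), 0 ≤ w → 0 ≤ H →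
      (∀ p ∈ S, T p + 2 * Λ * m ≤ H ∧ |X p - x₀| ≤ w ∧ |Y p - y₀| ≤ 4 * exp H) →
      (S.card : ℝ) * 2 ^ m ≤ C * (w + m + 1) * (H + 1) * exp H)
    (hT : ∀ p, 0 ≤ T p) {v : V} {u : ℤ} {n : ℕ}
    (hu1 : u * 2 ^ n ≤ v.2) (hu2 : v.2 < (u + 1) * 2 ^ n) {H δ c₁ c₂ : ℝ} (hH : 0 ≤ H)
    (hc : c₁ < c₂) {m : ℕ} (hm : 2 * Λ * m ≤ δ * H)
    (hE3 : 4 * Λ * exp Λ * (C * (Λ * (3 * n + 3) + m + 1) * (H + 1) * exp H) <
      2 ^ m * ((c₂ - c₁) / 3 * exp H))
    (hE4 : Λ ≤ 2 * exp (δ * H)) :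
    ∃ c Z, c₁ + (c₂ - c₁) / 3 < c ∧ c < c₂ - (c₂ - c₁) / 3 ∧ exp H < Z ∧ Z < 2 * exp H ∧
      ∀ p ∈ Win v.1 n n u, Hits Λ X Y T v H c Z p → (1 - δ) * H ≤ T p := by
  classical
  have hΛ := h.pos
  obtain ⟨S, -, hS⟩ := near_ball (2 * n + n + 3) v
  set L : Finset V := S.filter (fun p => Near (2 * n + n + 3) v p ∧
    T p < (1 - δ) * H ∧ |Y p - Y v| ≤ 4 * exp H) with hL
  have hLc : (L.card : ℝ) * 2 ^ m ≤ C * (Λ * (3 * n + 3) + m + 1) * (H + 1) * exp H := by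
    apply hC L (X v) (Y v) (Λ * (3 * n + 3)) H m (by positivity) hH
    intro p hp
    rw [hL, mem_filter] at hp
    refine ⟨by nlinarith [hp.2.2.1], ?_, hp.2.2.2⟩
    rw [abs_sub_comm]
    refine (h.near_X_of_nonneg hT hp.2.1).trans (le_of_eq ?_)
    push_cast; ring
  have h2m : (0 : ℝ) < 2 ^ m := by positivity
  have hlt : (L.card : ℝ) * (4 * Λ * exp Λ) < (c₂ - (c₂ - c₁) / 3 - (c₁ + (c₂ - c₁) / 3)) *
      (2 * exp H - exp H) := by
    have e : (c₂ - (c₂ - c₁) / 3 - (c₁ + (c₂ - c₁) / 3)) * (2 * exp H - exp H) =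
        (c₂ - c₁) / 3 * exp H := by ring
    rw [e]
    by_contra hcon
    push Not at hcon
    have h1 : 2 ^ m * ((c₂ - c₁) / 3 * exp H) ≤ 2 ^ m * ((L.card : ℝ) * (4 * Λ * exp Λ)) := by
      gcongr
    have h2 : 2 ^ m * ((L.card : ℝ) * (4 * Λ * exp Λ)) =
        4 * Λ * exp Λ * ((L.card : ℝ) * 2 ^ m) := by ring
    have h3 : 4 * Λ * exp Λ * ((L.card : ℝ) * 2 ^ m) ≤
        4 * Λ * exp Λ * (C * (Λ * (3 * n + 3) + m + 1) * (H + 1) * exp H) := by gcongr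
    linarith
  obtain ⟨c, Z, k1, k2, k3, k4, k5⟩ := exists_uncovered L X (fun p => gg Y T v p)
    (fun p => Λ * exp (-T p)) (fun p => exp Λ * exp (T p)) (4 * Λ * exp Λ)
    (c₁ + (c₂ - c₁) / 3) (c₂ - (c₂ - c₁) / 3) (exp H) (2 * exp H)
    (fun p _ => by positivity) (fun p _ => by positivity)
    (fun p _ => by
      have : exp (-T p) * exp (T p) = 1 := by rw [← exp_add]; simp
      have e : 4 * (Λ * exp (-T p) * (exp Λ * exp (T p))) =
        4 * Λ * exp Λ * (exp (-T p) * exp (T p)) := by ring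
      rw [e, this, mul_one]) (by linarith) hlt
  refine ⟨c, Z, k1, k2, k3, k4, fun p hp hh => ?_⟩
  by_contra hcon
  push Not at hcon
  have hn : Near (2 * n + n + 3) v p := win_near v.1 v.2 u n n hu1 hu2 p hp
  refine k5 p ?_ ⟨hh.x, hh.g⟩
  rw [hL, mem_filter]
  refine ⟨hS p hn, hn, hcon, hh.y.trans ?_⟩
  have h1 : Λ * exp (T p) ≤ 2 * exp (δ * H) * exp ((1 - δ) * H) := by
    have : exp (T p) ≤ exp ((1 - δ) * H) := exp_le_exp.2 hcon.le
    gcongr
  have h2 : exp (δ * H) * exp ((1 - δ) * H) = exp H := by rw [← exp_add]; ring_nf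
  nlinarith

/-- The final contradiction: a high vertex inside and a high vertex outside which are close to
the same target. -/
theorem ts_final (h : Coarse Λ X Y T) (hT : ∀ p, 0 ≤ T p) {v : V} {u : ℤ} {n : ℕ}
    (hu1 : u * 2 ^ n ≤ v.2) (hu2 : v.2 < (u + 1) * 2 ^ n) {H δ c₁ c₂ : ℝ} (hH : 0 < H)
    (hn : 2 ≤ n) {i₁ i₂ : ℕ} (hi₁ : i₁ < 2 ^ n) (hi₂ : i₂ < 2 ^ n) {c Z : ℝ}
    (hr1 : ∀ a ≤ n, X (ray v n i₁ a) ≤ c₁ ∨ T (ray v n i₁ a) ≤ H / 2)
    (hr2 : ∀ a ≤ n, c₂ ≤ X (ray v n i₂ a) ∨ T (ray v n i₂ a) ≤ H / 2)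
    (hc1 : c₁ + (c₂ - c₁) / 3 < c) (hc2 : c < c₂ - (c₂ - c₁) / 3) {p q : V}
    (hp : p ∈ Reg v.1 n (fun k => (ray v n i₁ k).2) (fun k => (ray v n i₂ k).2))
    (hpW : p ∈ Win v.1 n n u) (hp' : Hits Λ X Y T v H c Z p) (hpT : (1 - δ) * H ≤ T p)
    (hq : q ∉ Int' v.1 n (fun k => (ray v n i₁ k).2) (fun k => (ray v n i₂ k).2))
    (hq' : Hits Λ X Y T v H c Z q) (hqT : (1 - δ) * H ≤ T q) {m : ℕ} (hmn : m ≤ n)
    (hδ0 : 0 ≤ δ)
    (hm1 : Λ * (3 * δ * H + 8 * Λ + 7) ≤ m)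
    (hm2 : H / 2 < (1 - δ) * H - Λ * m)
    (hE7 : Λ * exp (-((1 - δ) * H)) + m * Λ * exp (-((1 - δ) * H) + Λ * m) < (c₂ - c₁) / 3)
    (hE8 : H + 1 + Λ + Λ * m ≤ 2 * H)
    (hE8' : m * Λ * exp (H + 1 + Λ + Λ * m) + (2 + 2 * Λ) * exp H ≤ 2 * exp (2 * H))
    (hE9 : Λ * (T v + 2 * log (Λ * (4 * n + 3) + 1) + 4 * H + 5) ≤ (n : ℝ) - 2) : False := by
  have hΛ := h.pos
  have hΛ1 := h.one_le
  -- `p` and `q` are close
  have hpq : Near m p q := by
    apply h.lower p q ((1 - δ) * H) H m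
    refine le_trans ?_ hm1
    apply mul_le_mul_of_nonneg_left _ hΛ.le
    have h1 : |T p - (1 - δ) * H| ≤ δ * H + 1 + Λ := by
      rw [abs_of_nonneg (by linarith)]
      have := hp'.t
      linarith
    have h2 : exp ((1 - δ) * H) * |X p - X q| ≤ 2 * Λ := by
      have e1 : |X p - X q| ≤ |X p - c| + |X q - c| := by
        have := abs_sub_le (X p) c (X q)
        rwa [abs_sub_comm c (X q)] at this
      have e2 : exp (-T p) ≤ exp (-((1 - δ) * H)) := exp_le_exp.2 (by linarith)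
      have e3 : exp (-T q) ≤ exp (-((1 - δ) * H)) := exp_le_exp.2 (by linarith)
      have e4 : |X p - X q| ≤ 2 * Λ * exp (-((1 - δ) * H)) := by
        have := hp'.x
        have := hq'.x
        nlinarith
      have e5 : exp ((1 - δ) * H) * exp (-((1 - δ) * H)) = 1 := by rw [← exp_add]; simp
      calc exp ((1 - δ) * H) * |X p - X q|
          ≤ exp ((1 - δ) * H) * (2 * Λ * exp (-((1 - δ) * H))) := by gcongr
        _ = 2 * Λ * (exp ((1 - δ) * H) * exp (-((1 - δ) * H))) := by ring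
        _ = 2 * Λ := by rw [e5, mul_one]
    have h3 : |H - (1 - δ) * H| = δ * H := by
      rw [abs_of_nonneg (by nlinarith)]; ring
    have h4 : exp (-H) * |Y p - Y q| ≤ 4 + 4 * Λ := by
      have e1 : |Y p - Y q| ≤ |Y p - Y v| + |Y q - Y v| := by
        have := abs_sub_le (Y p) (Y v) (Y q)
        rwa [abs_sub_comm (Y v) (Y q)] at this
      have e2 := hp'.y'
      have e3 := hq'.y'
      rw [exp_neg, inv_mul_le_iff₀ (exp_pos H)]
      linarith
    have h5 : |H - T q| ≤ δ * H + 1 + Λ := by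
      have := hq'.t
      rw [abs_le]
      constructor <;> nlinarith
    rw [h3]
    linarith
  obtain ⟨z, k, hz1, hk, hz2, hz3⟩ := cross v.1 n _ _ (fun k hk => ray_snd_succ v n i₁ k hk)
    (fun k hk => ray_snd_succ v n i₂ k hk)
    (by simp only [ray_zero v n i₁ hi₁, ray_zero v n i₂ hi₂]) m p q hp hq hpq
  -- estimates at `z`
  have tz := abs_le.1 (h.near_T hz1)
  have xz : |X z - c| < (c₂ - c₁) / 3 := by
    have e1 := h.near_X hz1
    have e2 : |X z - c| ≤ |X p - X z| + |X p - c| := by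
      have := abs_sub_le (X z) (X p) c
      rwa [abs_sub_comm (X z) (X p)] at this
    have e3 : exp (-T p) ≤ exp (-((1 - δ) * H)) := exp_le_exp.2 (by linarith)
    have e4 : exp (-T p + Λ * m) ≤ exp (-((1 - δ) * H) + Λ * m) := exp_le_exp.2 (by linarith)
    have e5 : m * Λ * exp (-T p + Λ * m) ≤ m * Λ * exp (-((1 - δ) * H) + Λ * m) := by gcongr
    have e6 : Λ * exp (-T p) ≤ Λ * exp (-((1 - δ) * H)) := by gcongr
    have := hp'.x
    linarith
  have xz' := abs_lt.1 xz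
  have tz1 : H / 2 < T z := by linarith [tz.2]
  rcases hz3 with hz3 | hz3 | ⟨rfl, hz3, hz4⟩
  · have e : z = ray v n i₁ k := by ext; exacts [hz2, hz3]
    rcases hr1 k hk with h1 | h1
    · rw [← e] at h1; linarith [xz'.1]
    · rw [← e] at h1; linarith
  · have e : z = ray v n i₂ k := by ext; exacts [hz2, hz3]
    rcases hr2 k hk with h1 | h1
    · rw [← e] at h1; linarith [xz'.2]
    · rw [← e] at h1; linarith
  · have e : z = (v.1 + (k : ℤ), z.2) := by ext; exacts [hz2, rfl]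
    have hvp : Near (2 * k + k + 3) v p := win_near v.1 v.2 u k k hu1 hu2 p hpW
    have xvp := h.near_X_of_nonneg hT hvp
    have xpz := h.near_X_of_nonneg hT hz1
    have hnear : Near (k - 2) v z := by
      apply near_of_gg h hT (b := 2 * H) (by positivity) (w := Λ * (4 * k + 3)) (by positivity)
      · have e1 := abs_sub_le (X v) (X p) (X z)
        have e2 : Λ * (m : ℝ) ≤ Λ * k := by gcongr
        push_cast at xvp
        nlinarith
      · have := hp'.t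
        linarith [tz.1]
      · have e1 := h.near_Y hz1
        have e2 := abs_sub_le (Y v) (Y p) (Y z)
        have e3 := hp'.y'
        rw [abs_sub_comm] at e3
        have e4 : exp (T p + Λ * m) ≤ exp (H + 1 + Λ + Λ * m) :=
          exp_le_exp.2 (by linarith [hp'.t])
        have e5 : m * Λ * exp (T p + Λ * m) ≤ m * Λ * exp (H + 1 + Λ + Λ * m) := by gcongr
        linarith
      · rw [Nat.cast_sub hn]; push_cast; linarith
    have := far v.1 v.2 u k k (k - 2) hu1 hu2 z hnear (Or.inl ⟨z.2, e⟩)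
    omega

end Helper67.SQ
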