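import Pool.Agent.Helper67.SQ.StrandLocal

/-!
# The two strand lemma
-/

namespace Helper67.SQ

open Real Finset

theorem two_pow_floor (x : ℝ) : exp (x / 2) / 2 ≤ 2 ^ ⌊x⌋₊ := by
  have h1 : x - 1 ≤ (⌊x⌋₊ : ℝ) := by linarith [Nat.lt_floor_add_one x]
  have h2 : (2 : ℝ) ^ ⌊x⌋₊ = exp (log 2 * ⌊x⌋₊) := by
    rw [mul_comm, exp_nat_mul, exp_log (by norm_num)]
  have hl := Real.log_two_gt_d9
  have hl' := Real.log_two_lt_d9
  rw [h2, div_le_iff₀ (by norm_num)]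
  have h3 : exp (log 2 * ⌊x⌋₊) * 2 = exp (log 2 * ⌊x⌋₊ + log 2) := by
    rw [exp_add, exp_log (by norm_num)]
  rw [h3]
  apply exp_le_exp.2
  nlinarith

theorem two_strand_aux (Λ : ℝ) (hΛ : 1 ≤ Λ) : ∃ c₀ η₀ a₀ : ℝ, 0 < c₀ ∧ c₀ ≤ 1 / 2 ∧ 0 < η₀ ∧
    0 < a₀ ∧
    ∃ n₁ : ℕ, ∀ X Y T : V → ℝ, Coarse Λ X Y T → (∀ p, 0 ≤ T p) →
    ∀ n : ℕ, n₁ ≤ n → ∀ v : V, T v ≤ η₀ * n → ∀ i₁ i₂ : ℕ, i₁ < 2 ^ n → i₂ < 2 ^ n → i₁ ≤ i₂ →
    ∀ c₁ c₂ : ℝ, exp (-a₀ * n) ≤ c₂ - c₁ →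
    (∀ a : ℕ, c₀ * n ≤ a → a ≤ n → X (ray v n i₁ a) ≤ c₁) →
    (∀ a : ℕ, c₀ * n ≤ a → a ≤ n → c₂ ≤ X (ray v n i₂ a)) → False := by
  obtain ⟨C, hC0, hC⟩ := sparse_bound Λ hΛ
  have hΛ0 : 0 < Λ := by linarith
  set β : ℝ := 1 / (40 * Λ) with hβ
  set δ : ℝ := 1 / (20 * Λ ^ 2) with hδ
  have hβ0 : 0 < β := by positivity
  have hδ0 : 0 < δ := by positivity
  have hβΛ : Λ * β = 1 / 40 := by rw [hβ]; field_simp
  have hδΛ : Λ ^ 2 * δ = 1 / 20 := by rw [hδ]; field_simp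
  have hβ1 : β ≤ 1 / 40 := by nlinarith
  have hΛ2 : 1 ≤ Λ ^ 2 := by nlinarith
  have hδ1 : δ ≤ 1 / 20 := by nlinarith
  set a₀ : ℝ := δ * β / (8 * Λ) with ha₀
  have ha0 : 0 < a₀ := by positivity
  have ha1 : a₀ ≤ β / 160 := by
    rw [ha₀, div_le_iff₀ (by positivity)]
    have : δ * β ≤ 1 / 20 * β := by gcongr
    nlinarith
  have hc0 : β / (8 * Λ) ≤ 1 / 2 := by
    rw [div_le_iff₀ (by positivity)]; nlinarith
  refine ⟨β / (8 * Λ), β / 8, a₀, by positivity, hc0, by positivity, ha0, ?_⟩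
  -- asymptotics
  have E0 : ∀ᶠ ν : ℝ in Filter.atTop, 2 ≤ ν := Filter.eventually_ge_atTop 2
  have E1 : ∀ᶠ ν : ℝ in Filter.atTop, 0 * ν ^ 2 + Λ * ν + 0 ≤ exp ((3 / 4 * β) * ν) :=
    ev_quad_le_exp _ _ _ _ (by positivity)
  have E2 : ∀ᶠ ν : ℝ in Filter.atTop, log ((3 * Λ) * ν + (3 * Λ + 1)) ≤ 1 / (16 * Λ) * ν :=
    ev_log_le _ _ _ (by positivity) (by positivity)
  have E2' : ∀ᶠ ν : ℝ in Filter.atTop, log ((4 * Λ) * ν + (3 * Λ + 1)) ≤ 1 / (16 * Λ) * ν :=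
    ev_log_le _ _ _ (by positivity) (by positivity)
  have E2'' : ∀ᶠ ν : ℝ in Filter.atTop, 10 * Λ + 4 ≤ ν := Filter.eventually_ge_atTop _
  set A : ℝ := 24 * Λ * exp Λ * C with hA
  have hA0 : 0 < A := by positivity
  have E3 : ∀ᶠ ν : ℝ in Filter.atTop,
      (A * (3 * Λ + 1) * β) * ν ^ 2 + (A * ((3 * Λ + 1) + (3 * Λ + 1) * β)) * ν +
        (A * (3 * Λ + 1) + 1) ≤ exp (a₀ * ν) := ev_quad_le_exp _ _ _ _ (by positivity)
  have E4 : ∀ᶠ ν : ℝ in Filter.atTop, 0 * ν ^ 2 + 0 * ν + Λ ≤ exp ((δ * β) * ν) :=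
    ev_quad_le_exp _ _ _ _ (by positivity)
  have E5 : ∀ᶠ ν : ℝ in Filter.atTop, (Λ * (8 * Λ + 7) + 1) / (Λ * δ * β) ≤ ν :=
    Filter.eventually_ge_atTop _
  have E7 : ∀ᶠ ν : ℝ in Filter.atTop, 0 * ν ^ 2 + (3 * β) * ν + (3 * Λ + 1) ≤
      exp ((β / 2) * ν) := ev_quad_le_exp _ _ _ _ (by positivity)
  have E8 : ∀ᶠ ν : ℝ in Filter.atTop, (1 + Λ) / (4 / 5 * β) ≤ ν :=
    Filter.eventually_ge_atTop _
  have E8' : ∀ᶠ ν : ℝ in Filter.atTop, 0 * ν ^ 2 + (β * exp (1 + Λ)) * ν + 0 ≤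
      exp ((4 / 5 * β) * ν) := ev_quad_le_exp _ _ _ _ (by positivity)
  have E8'' : ∀ᶠ ν : ℝ in Filter.atTop, 0 * ν ^ 2 + 0 * ν + (2 + 2 * Λ) ≤ exp (β * ν) :=
    ev_quad_le_exp _ _ _ _ (by positivity)
  have key := ev_nat (E0.and <| E1.and <| E2.and <| E2'.and <| E2''.and <| E3.and <| E4.and <|
    E5.and <| E7.and <| E8.and <| E8'.and E8'')
  obtain ⟨n₁, hn₁⟩ := Filter.eventually_atTop.1 key
  refine ⟨n₁, fun X Y T h hT n hn v hv i₁ i₂ hi₁ hi₂ h12 c₁ c₂ hgap hX1 hX2 => ?_⟩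
  obtain ⟨e0, e1, e2, e2', e2'', e3, e4, e5, e7, e8, e8', e8''⟩ := hn₁ n hn
  clear key hn₁ E0 E1 E2 E2' E2'' E3 E4 E5 E7 E8 E8' E8''
  set ν : ℝ := (n : ℝ) with hν
  have hν0 : 0 < ν := by linarith
  have hn2 : 2 ≤ n := by exact_mod_cast (show (2 : ℝ) ≤ (n : ℝ) from e0)
  set H : ℝ := β * ν with hH
  have hH0 : 0 < H := by positivity
  have hc12 : c₁ < c₂ := by linarith [exp_pos (-a₀ * ν)]
  -- logs
  have hl1 : log (Λ * (3 * ν + 3) + 1) ≤ 1 / (16 * Λ) * ν := by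
    rw [show Λ * (3 * ν + 3) + 1 = (3 * Λ) * ν + (3 * Λ + 1) by ring]; exact e2
  have hl2 : log (Λ * (4 * ν + 3) + 1) ≤ 1 / (16 * Λ) * ν := by
    rw [show Λ * (4 * ν + 3) + 1 = (4 * Λ) * ν + (3 * Λ + 1) by ring]; exact e2'
  have hLl : Λ * (1 / (16 * Λ) * ν) = ν / 16 := by field_simp
  have hΛH : Λ * H = ν / 40 := by rw [hH, ← mul_assoc, hβΛ]; ring
  have hTv : T v ≤ H / 8 := by rw [hH]; linarith
  have hE2 : Λ * (T v + 2 * log (Λ * (3 * n + 3) + 1) + 2 * H + 5) ≤ (n : ℝ) - 2 := by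
    have : Λ * (T v + 2 * log (Λ * (3 * n + 3) + 1) + 2 * H + 5) ≤
        Λ * (H / 8 + 2 * (1 / (16 * Λ) * ν) + 2 * H + 5) := by gcongr
    refine this.trans ?_
    have e : Λ * (H / 8 + 2 * (1 / (16 * Λ) * ν) + 2 * H + 5) =
      Λ * H / 8 + 2 * (Λ * (1 / (16 * Λ) * ν)) + 2 * (Λ * H) + 5 * Λ := by ring
    rw [e, hLl, hΛH]
    linarith
  have hE9 : Λ * (T v + 2 * log (Λ * (4 * n + 3) + 1) + 4 * H + 5) ≤ (n : ℝ) - 2 := by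
    have : Λ * (T v + 2 * log (Λ * (4 * n + 3) + 1) + 4 * H + 5) ≤
        Λ * (H / 8 + 2 * (1 / (16 * Λ) * ν) + 4 * H + 5) := by gcongr
    refine this.trans ?_
    have e : Λ * (H / 8 + 2 * (1 / (16 * Λ) * ν) + 4 * H + 5) =
      Λ * H / 8 + 2 * (Λ * (1 / (16 * Λ) * ν)) + 4 * (Λ * H) + 5 * Λ := by ring
    rw [e, hLl, hΛH]
    linarith
  -- window
  set u : ℤ := v.2 / 2 ^ n with hu
  have h2n : (0 : ℤ) < 2 ^ n := by positivity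
  have hu1 : u * 2 ^ n ≤ v.2 := Int.ediv_mul_le _ h2n.ne'
  have hu2 : v.2 < (u + 1) * 2 ^ n := Int.lt_ediv_add_one_mul_self _ h2n
  -- near part of the rays
  have near_part : ∀ i, i < 2 ^ n → ∀ a ≤ n, (a : ℝ) < β / (8 * Λ) * n →
      T (ray v n i a) ≤ H / 2 ∧ gg Y T v (ray v n i a) ≤ exp H := by
    intro i hi a ha hac
    have hna : Near a v (ray v n i a) := by
      have := ray_near v n i 0 a (Nat.zero_le _) ha
      rwa [ray_zero v n i hi, Nat.sub_zero] at this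
    have hΛa : Λ * a ≤ H / 8 := by
      have : Λ * (a : ℝ) ≤ Λ * (β / (8 * Λ) * n) := by gcongr
      refine this.trans (le_of_eq ?_)
      rw [hH, hν]; field_simp
    have t1 := abs_le.1 (h.near_T hna)
    have y1 := h.near_Y hna
    have hT1 : T (ray v n i a) ≤ H / 4 := by linarith [t1.1]
    refine ⟨by linarith, max_le ?_ ?_⟩
    · exact exp_le_exp.2 (by linarith)
    · rw [abs_sub_comm]
      refine y1.trans ?_
      have ha' : (a : ℝ) ≤ (n : ℝ) := by exact_mod_cast ha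
      calc (a : ℝ) * Λ * exp (T v + Λ * a) ≤ ν * Λ * exp (H / 4) := by
            gcongr; linarith
        _ ≤ exp (3 / 4 * H) * exp (H / 4) := by
            gcongr
            rw [hH]
            have : 3 / 4 * (β * ν) = 3 / 4 * β * ν := by ring
            rw [this]; linarith
        _ = exp H := by rw [← exp_add]; ring_nf
  have hr1 : ∀ a ≤ n, X (ray v n i₁ a) ≤ c₁ ∨ (T (ray v n i₁ a) ≤ H / 2 ∧
      gg Y T v (ray v n i₁ a) ≤ exp H) := by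
    intro a ha
    rcases lt_or_ge (a : ℝ) (β / (8 * Λ) * n) with hac | hac
    · exact Or.inr (near_part i₁ hi₁ a ha hac)
    · exact Or.inl (hX1 a hac ha)
  have hr2 : ∀ a ≤ n, c₂ ≤ X (ray v n i₂ a) ∨ (T (ray v n i₂ a) ≤ H / 2 ∧
      gg Y T v (ray v n i₂ a) ≤ exp H) := by
    intro a ha
    rcases lt_or_ge (a : ℝ) (β / (8 * Λ) * n) with hac | hac
    · exact Or.inr (near_part i₂ hi₂ a ha hac)
    · exact Or.inl (hX2 a hac ha)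
  -- the target
  set x : ℝ := δ * H / (2 * Λ) with hx
  have hx0 : 0 ≤ x := by positivity
  have hxa : x / 2 = 2 * a₀ * ν := by rw [hx, ha₀, hH]; field_simp; ring
  have hmx : (⌊x⌋₊ : ℝ) ≤ x := Nat.floor_le hx0
  have hxν : x ≤ ν := by
    rw [hx, div_le_iff₀ (by positivity)]
    have : δ * H ≤ 1 / 20 * H := by gcongr
    have : H ≤ 1 / 40 * ν := by rw [hH]; gcongr
    have : 1 * ν ≤ Λ * ν := by gcongr
    linarith
  have hm1 : 2 * Λ * ((⌊x⌋₊ : ℕ) : ℝ) ≤ δ * H := by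
    have : 2 * Λ * ((⌊x⌋₊ : ℕ) : ℝ) ≤ 2 * Λ * x := by gcongr
    refine this.trans (le_of_eq ?_)
    rw [hx]; field_simp
  have hm2 : 4 * Λ * exp Λ * (C * (Λ * (3 * n + 3) + ((⌊x⌋₊ : ℕ) : ℝ) + 1) * (H + 1) * exp H) <
      2 ^ ⌊x⌋₊ * ((c₂ - c₁) / 3 * exp H) := by
    have g1 := two_pow_floor x
    rw [hxa] at g1
    have g2 : exp (2 * a₀ * ν) * exp (-a₀ * ν) = exp (a₀ * ν) := by
      rw [← exp_add]; ring_nf
    have g3' : exp (a₀ * ν) / 6 ≤ 2 ^ ⌊x⌋₊ * ((c₂ - c₁) / 3) := by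
      calc exp (a₀ * ν) / 6 = (exp (2 * a₀ * ν) / 2) * (exp (-a₀ * ν) / 3) := by
            rw [← g2]; ring
        _ ≤ 2 ^ ⌊x⌋₊ * ((c₂ - c₁) / 3) := by gcongr
    have g3 : exp (a₀ * ν) / 6 * exp H ≤ 2 ^ ⌊x⌋₊ * ((c₂ - c₁) / 3 * exp H) := by
      rw [← mul_assoc]
      exact mul_le_mul_of_nonneg_right g3' (exp_pos H).le
    refine lt_of_lt_of_le ?_ g3
    have g4 : C * (Λ * (3 * n + 3) + ((⌊x⌋₊ : ℕ) : ℝ) + 1) * (H + 1) * exp H ≤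
        C * (Λ * (3 * n + 3) + ν + 1) * (H + 1) * exp H := by
      gcongr; linarith
    have g5 : 4 * Λ * exp Λ * (C * (Λ * (3 * n + 3) + ν + 1) * (H + 1) * exp H) =
        (A * ((3 * Λ + 1) * ν + (3 * Λ + 1)) * (β * ν + 1)) / 6 * exp H := by
      rw [hA, hH, hν]; ring
    have g6 : A * ((3 * Λ + 1) * ν + (3 * Λ + 1)) * (β * ν + 1) < exp (a₀ * ν) := by
      have : A * ((3 * Λ + 1) * ν + (3 * Λ + 1)) * (β * ν + 1) =
        (A * (3 * Λ + 1) * β) * ν ^ 2 + (A * ((3 * Λ + 1) + (3 * Λ + 1) * β)) * ν +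
      (A * (3 * Λ + 1)) := by ring
      rw [this]; linarith
    calc 4 * Λ * exp Λ * (C * (Λ * (3 * n + 3) + ((⌊x⌋₊ : ℕ) : ℝ) + 1) * (H + 1) * exp H)
        ≤ 4 * Λ * exp Λ * (C * (Λ * (3 * n + 3) + ν + 1) * (H + 1) * exp H) := by gcongr
      _ = (A * ((3 * Λ + 1) * ν + (3 * Λ + 1)) * (β * ν + 1)) / 6 * exp H := g5
      _ < exp (a₀ * ν) / 6 * exp H := by gcongr
  have hm3 : Λ ≤ 2 * exp (δ * H) := by
    have : δ * H = δ * β * ν := by rw [hH]; ring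
    rw [this]
    linarith [exp_pos (δ * β * ν)]
  obtain ⟨c, Z, k1, k2, k3, k4, k5⟩ := exists_target h (hC X Y T h hT)
    hT hu1 hu2 (δ := δ) hH0.le hc12 hm1 hm2 hm3
  obtain ⟨⟨p, p1, p2, p3⟩, ⟨q, q1, q2, q3⟩⟩ := both_sides h hT hu1 hu2 hH0.le hn2 hE2 hi₁ hi₂ h12
    (c₁ := c₁) (c₂ := c₂) (c := c) (Z := Z) (by linarith) (by linarith) k3 k4
    (fun a ha => (hr1 a ha).imp_right And.right) (fun a ha => (hr2 a ha).imp_right And.right)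
  -- the number of steps
  set y : ℝ := Λ * (3 * δ * H + 8 * Λ + 7) with hy
  have hy0 : 0 ≤ y := by positivity
  have hyc : (⌈y⌉₊ : ℝ) ≤ 4 * Λ * δ * H := by
    have h1 : (⌈y⌉₊ : ℝ) < y + 1 := Nat.ceil_lt_add_one hy0
    rw [div_le_iff₀ (by positivity)] at e5
    have h3 : ν * (Λ * δ * β) = Λ * δ * H := by rw [hH]; ring
    have h4 : y + 1 = 3 * (Λ * δ * H) + (Λ * (8 * Λ + 7) + 1) := by rw [hy]; ring
    have h2 : y + 1 ≤ 4 * Λ * δ * H := by rw [h4]; linarith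
    linarith
  have hΛm : Λ * (⌈y⌉₊ : ℝ) ≤ H / 5 := by
    have h1 : Λ * (⌈y⌉₊ : ℝ) ≤ Λ * (4 * Λ * δ * H) := by gcongr
    have h2 : Λ * (4 * Λ * δ * H) = 4 * (Λ ^ 2 * δ) * H := by ring
    rw [h2, hδΛ] at h1
    linarith
  have hδH : (1 - δ) * H = H - δ * H := by ring
  have hδH' : δ * H ≤ 1 / 20 * H := by gcongr
  refine ts_final h hT hu1 hu2 hH0 hn2 hi₁ hi₂ (fun a ha => (hr1 a ha).imp_right And.left)
    (fun a ha => (hr2 a ha).imp_right And.left) k1 k2 p1 p2 p3 (k5 p p2 p3) q1 q3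
    (k5 q q2 q3) (m := ⌈y⌉₊) ?_ hδ0.le (Nat.le_ceil y) ?_ ?_ ?_ ?_ hE9
  · have : (⌈y⌉₊ : ℝ) ≤ (n : ℝ) := by
      have h1 : (⌈y⌉₊ : ℝ) ≤ Λ * ⌈y⌉₊ := by
        have : (0 : ℝ) ≤ (⌈y⌉₊ : ℝ) := by positivity
        exact le_mul_of_one_le_left this hΛ
      have : H ≤ 1 / 40 * ν := by rw [hH]; gcongr
      linarith
    exact_mod_cast this
  · rw [hδH]; linarith
  · have g1 : exp (-((1 - δ) * H)) ≤ exp (-(19 / 20 * H)) :=
      exp_le_exp.2 (by rw [hδH]; linarith)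
    have g2 : exp (-((1 - δ) * H) + Λ * ⌈y⌉₊) ≤ exp (-(3 / 4 * H)) :=
      exp_le_exp.2 (by rw [hδH]; linarith)
    have g3 : exp (-(19 / 20 * H)) ≤ exp (-(3 / 4 * H)) := exp_le_exp.2 (by linarith)
    have g4 : (⌈y⌉₊ : ℝ) * Λ * exp (-((1 - δ) * H) + Λ * ⌈y⌉₊) ≤ H / 5 * exp (-(3 / 4 * H)) := by
      have : (⌈y⌉₊ : ℝ) * Λ ≤ H / 5 := by linarith
      gcongr
    have g5 : Λ * exp (-((1 - δ) * H)) ≤ Λ * exp (-(3 / 4 * H)) :=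
      mul_le_mul_of_nonneg_left (g1.trans g3) hΛ0.le
    have g6 : (Λ + H / 5) * exp (-(3 / 4 * H)) < exp (-a₀ * ν) / 3 := by
      have h1 : exp (-(3 / 4 * H)) = exp (-(1 / 2 * H)) * exp (-(1 / 4 * H)) := by
        rw [← exp_add]; ring_nf
      have h2 : exp (-(1 / 4 * H)) ≤ exp (-a₀ * ν) := by
        apply exp_le_exp.2
        have : a₀ * ν ≤ β / 160 * ν := by gcongr
        have : 0 < β * ν := by positivity
        rw [hH]; linarith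
      have h3 : (Λ + H / 5) * exp (-(1 / 2 * H)) < 1 / 3 := by
        rw [exp_neg, ← div_eq_mul_inv, div_lt_iff₀ (exp_pos _)]
        have : exp (1 / 2 * H) = exp (β / 2 * ν) := by rw [hH]; ring_nf
        have : 0 < β * ν := by positivity
        rw [‹exp (1 / 2 * H) = exp (β / 2 * ν)›, hH]
        linarith
      calc (Λ + H / 5) * exp (-(3 / 4 * H))
          = ((Λ + H / 5) * exp (-(1 / 2 * H))) * exp (-(1 / 4 * H)) := by rw [h1]; ring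
        _ ≤ ((Λ + H / 5) * exp (-(1 / 2 * H))) * exp (-a₀ * ν) := by gcongr
        _ < 1 / 3 * exp (-a₀ * ν) := by gcongr
        _ = exp (-a₀ * ν) / 3 := by ring
    have g7 : (Λ + H / 5) * exp (-(3 / 4 * H)) =
        Λ * exp (-(3 / 4 * H)) + H / 5 * exp (-(3 / 4 * H)) := by ring
    linarith
  · rw [div_le_iff₀ (by positivity)] at e8
    rw [hH] at hΛm ⊢
    linarith
  · have g1 : exp (H + 1 + Λ + Λ * ⌈y⌉₊) ≤ exp (1 + Λ) * exp (6 / 5 * H) := by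
      rw [← exp_add]; exact exp_le_exp.2 (by linarith)
    have g2 : (⌈y⌉₊ : ℝ) * Λ * exp (H + 1 + Λ + Λ * ⌈y⌉₊) ≤
        H * (exp (1 + Λ) * exp (6 / 5 * H)) := by
      have : (⌈y⌉₊ : ℝ) * Λ ≤ H := by linarith
      gcongr
    have g3 : H * (exp (1 + Λ) * exp (6 / 5 * H)) ≤ exp (2 * H) := by
      have h1 : H * exp (1 + Λ) ≤ exp (4 / 5 * H) := by
        have : exp (4 / 5 * H) = exp (4 / 5 * β * ν) := by rw [hH]; ring_nf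
        rw [this, hH]; linarith
      calc H * (exp (1 + Λ) * exp (6 / 5 * H)) = (H * exp (1 + Λ)) * exp (6 / 5 * H) := by ring
        _ ≤ exp (4 / 5 * H) * exp (6 / 5 * H) := by gcongr
        _ = exp (2 * H) := by rw [← exp_add]; ring_nf
    have g4 : (2 + 2 * Λ) * exp H ≤ exp (2 * H) := by
      calc (2 + 2 * Λ) * exp H ≤ exp H * exp H := by
            gcongr; rw [hH]; linarith
        _ = exp (2 * H) := by rw [← exp_add]; ring_nf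
    linarith

/-- The two strand lemma. -/
theorem two_strand (Λ : ℝ) (hΛ : 1 ≤ Λ) : ∃ c₀ η₀ a₀ : ℝ, 0 < c₀ ∧ c₀ ≤ 1 / 2 ∧ 0 < η₀ ∧ 0 < a₀ ∧
    ∃ n₁ : ℕ, ∀ X Y T : V → ℝ, Coarse Λ X Y T → (∀ p, 0 ≤ T p) →
    ∀ n : ℕ, n₁ ≤ n → ∀ v : V, T v ≤ η₀ * n → ∀ i₁ i₂ : ℕ, i₁ < 2 ^ n → i₂ < 2 ^ n →
    ∀ c₁ c₂ : ℝ, exp (-a₀ * n) ≤ c₂ - c₁ →
    (∀ a : ℕ, c₀ * n ≤ a → a ≤ n → X (ray v n i₁ a) ≤ c₁) →
    (∀ a : ℕ, c₀ * n ≤ a → a ≤ n → c₂ ≤ X (ray v n i₂ a)) → False := by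
  obtain ⟨c₀, η₀, a₀, h1, h2, h3, h4, n₁, h5⟩ := two_strand_aux Λ hΛ
  refine ⟨c₀, η₀, a₀, h1, h2, h3, h4, n₁, fun X Y T h hT n hn v hv i₁ i₂ hi₁ hi₂ c₁ c₂ hg
    hX1 hX2 => ?_⟩
  rcases le_total i₁ i₂ with h12 | h12
  · exact h5 X Y T h hT n hn v hv i₁ i₂ hi₁ hi₂ h12 c₁ c₂ hg hX1 hX2
  · exact h5 (fun p => - X p) Y T h.neg_X hT n hn v hv i₂ i₁ hi₂ hi₁ h12 (-c₂) (-c₁)
      (by linarith) (fun a ha1 ha2 => by simpa using hX2 a ha1 ha2)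
      (fun a ha1 ha2 => by simpa using hX1 a ha1 ha2)

end Helper67.SQ
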